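import Pool.Agent.H36.RSub

open Pool.Agent.H38.NP Pool.Agent.H36.PSpace Pool.Agent.H36.Tab

theorem Pool.Agent.Results.MP_76b05e_lc.Hard.result (k : ℕ) (hk : 2 ≤ k) :
    PSPACEHardOn
      (fun p : ℕ × ℕ × List (List ℕ) × List ℕ =>
        p.2.1 = 4 ∧ Total p.1 p.2.1 p.1 p.2.2.1 ∧ p.2.2.2.toFinset ⊆ Finset.range p.1 ∧
          p.2.2.2.toFinset.card = k)
      (fun p => ∃ w, Word p.2.1 w ∧ img p.1 p.2.2.1 w = p.2.2.2.toFinset) :=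
  ((rsub_psh k hk).reduce (fun p => (p.1, 4, p.2)) (by fun_prop)
    fun _ h => ⟨⟨rfl, h⟩, Iff.rfl⟩).hardOn
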